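import Mathlib
import Pool.Agent.Helper224_tor.BridgeCls

/-!
# Symplectic classes on products with tori and torus-invariant almost complex structures

`σ` is a smooth closed two-form on the product of the torus `T^m` and a manifold `P` which is
invariant under the torus and nondegenerate on the tori; `ρ` is the reduced form of `σ`, a closed
two-form on `P`. The following are equivalent:

* the cohomology class of `σ` contains a closed form `σ'` (invariant or not) such that for every
  nonzero `v` tangent to `T^m × P` at a point of an orbit there is `w` with `σ'(v, w) > 0` along
  the orbit (for the invariant extensions of `v` and `w`);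
* the class of `σ` contains a closed form (invariant or not; it is symplectic) which is positive
  on `(v, A v)`, `v ≠ 0`, for some torus-invariant field `A` of endomorphisms of the tangent
  spaces, for instance a torus-invariant almost complex structure;
* the class of `σ` contains a torus-invariant symplectic form;
* the class of `ρ` contains a symplectic form.
-/

set_option autoImplicit false

open scoped Manifold ContDiff

namespace Pool.Agent.Results.MP_bf98aa_gt.TorusClasses

open Pool.Agent.Y501.SYP Pool.Agent.Helper224_torP

theorem result (m : ℕ) (V : Type) [NormedAddCommGroup V] [NormedSpace ℝ V]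
    [FiniteDimensional ℝ V] (P : Type) [TopologicalSpace P] [ChartedSpace V P]
    [IsManifold 𝓘(ℝ, V) ∞ P] (σ : Form (Md m V) (Cyl m P) 2) (smooth : IsSmooth σ)
    (closed : IsClosedForm σ) (inv : ∀ s : Fin m → ℝ, InvForm (shift s) σ)
    (nondeg : NondegT σ) :
    ∃ ρ : Form V P 2, IsSmooth ρ ∧ IsClosedForm ρ ∧ IsRed σ ρ ∧
      (∀ ρ' : Form V P 2, IsRed σ ρ' → ρ' = ρ) ∧
      List.TFAE [PosIn σ, TamedIn σ, InvSympIn σ, SympIn ρ] :=
  Pool.Agent.Helper224_tor.mainCls σ smooth closed inv nondeg

end Pool.Agent.Results.MP_bf98aa_gt.TorusClasses
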